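import Mathlib
import Pool.Agent.helper36.KCBin
import Pool.Agent.helper82.KCA.Cover

/-!
A covering lemma with deficiency subspaces, for families of subspaces.
-/

namespace Pool.Agent.helper82.KCE

open Finset Pool.Agent.helper36.KC Pool.Agent.helper82.KCA

section extend

variable {F U ι : Type*} [Field F] [AddCommGroup U] [Module F U] [FiniteDimensional F U]

/-- a few subspaces of the family are enough to capture the whole family -/
lemma exists_extend (f : ι → Submodule F U) (s : Set ι) (V : Submodule F U) :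
    ∃ E : Finset ι, (∀ i ∈ E, i ∈ s) ∧
      (∀ i ∈ s, f i ≤ V ⊔ ⨆ j ∈ E, f j) ∧
      Module.finrank F V + E.card ≤
        Module.finrank F (V ⊔ ⨆ j ∈ E, f j : Submodule F U) := by
  classical
  let P : ℕ → Prop := fun k => ∃ E : Finset ι, E.card = k ∧ (∀ i ∈ E, i ∈ s) ∧
    Module.finrank F V + E.card ≤
      Module.finrank F (V ⊔ ⨆ j ∈ E, f j : Submodule F U)
  have h0 : P 0 := by
    refine ⟨∅, rfl, by simp, ?_⟩
    simp only [card_empty, add_zero]
    exact Submodule.finrank_mono le_sup_left
  have hbd : ∀ k, P k → k ≤ Module.finrank F U := by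
    rintro k ⟨E, hE, -, hle⟩
    have := Submodule.finrank_le (V ⊔ ⨆ j ∈ E, f j : Submodule F U)
    omega
  obtain ⟨E, hE, hs, hle⟩ := Nat.findGreatest_spec (P := P) (Nat.zero_le (Module.finrank F U)) h0
  refine ⟨E, hs, ?_, hle⟩
  intro i hi
  by_contra hno
  have hiE : i ∉ E := by
    intro h
    exact hno (le_sup_of_le_right (le_iSup₂_of_le i h le_rfl))
  have hlt : (V ⊔ ⨆ j ∈ E, f j : Submodule F U) < (V ⊔ ⨆ j ∈ insert i E, f j : Submodule F U) := by
    refine lt_of_le_of_ne ?_ ?_
    · refine sup_le_sup_left (iSup₂_le fun j hj => ?_) V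
      exact le_iSup₂_of_le j (mem_insert_of_mem hj) le_rfl
    · intro heq
      apply hno
      rw [heq]
      exact le_sup_of_le_right (le_iSup₂_of_le i (mem_insert_self i E) le_rfl)
  have hfr := Submodule.finrank_lt_finrank_of_lt hlt
  have hP : P (E.card + 1) := by
    refine ⟨insert i E, card_insert_of_notMem hiE, ?_, ?_⟩
    · intro j hj
      rw [mem_insert] at hj
      rcases hj with rfl | hj
      · exact hi
      · exact hs j hj
    · rw [card_insert_of_notMem hiE]
      omega
  have := Nat.le_findGreatest (P := P) (hbd _ hP) hP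
  omega

end extend

section cover

variable {Λ L F U : Type*} [Field F] [AddCommGroup U] [Module F U] [FiniteDimensional F U]

/-- the sum of the subspaces of the members of `T` which miss `w` -/
def VS {Λ F U : Type*} [Field F] [AddCommGroup U] [Module F U] (φ : Λ → Submodule F U)
    {n : ℕ} (T : Set (Λ × (Fin n → Option Bool))) (w : Fin n → Bool) :
    Submodule F U :=
  ⨆ p ∈ {p : Λ × (Fin n → Option Bool) | p ∈ T ∧ MissW p.2 w}, φ p.1

omit [FiniteDimensional F U] in
lemma le_VS {φ : Λ → Submodule F U} {n : ℕ} {T : Set (Λ × (Fin n → Option Bool))}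
    {w : Fin n → Bool} {p : Λ × (Fin n → Option Bool)} (hp : p ∈ T) (hm : MissW p.2 w) :
    φ p.1 ≤ VS φ T w :=
  le_iSup₂_of_le (f := fun (p : Λ × (Fin n → Option Bool))
    (_ : p ∈ {p : Λ × (Fin n → Option Bool) | p ∈ T ∧ MissW p.2 w}) => φ p.1) p ⟨hp, hm⟩ le_rfl

omit [FiniteDimensional F U] in
lemma VS_le {φ : Λ → Submodule F U} {n : ℕ} {T : Set (Λ × (Fin n → Option Bool))}
    {w : Fin n → Bool} {Q : Submodule F U} (h : ∀ p ∈ T, MissW p.2 w → φ p.1 ≤ Q) :
    VS φ T w ≤ Q :=
  iSup₂_le fun p hp => h p hp.1 hp.2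

omit [FiniteDimensional F U] in
/-- fullness when the budget is large -/
lemma VS_full {inc : Λ → L → Prop} {φ : Λ → Submodule F U} {g : ℕ}
    (hfull : ∀ Y : Set Λ, (∀ C : Finset L, C.card ≤ g → ∃ y ∈ Y, ∀ l ∈ C, ¬ inc y l) →
      (⨆ y ∈ Y, φ y) = ⊤)
    {n b : ℕ} (hb : g + n ≤ b) {S : Set (Λ × (Fin n → Option Bool))}
    (hS : AvoidsAll' inc b S) (w : Fin n → Bool) : VS φ S w = ⊤ := by
  classical
  have h := hfull {y | ∃ e, (y, e) ∈ S ∧ MissW e w} (by
    intro C hC
    obtain ⟨⟨y, e⟩, he, hCy, h0, h1⟩ := hS C (univ.filter fun i => w i = false)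
      (univ.filter fun i => w i = true) (by
        have : (univ.filter fun i => w i = false).card + (univ.filter fun i => w i = true).card
            = n := by
          have h := Finset.card_filter_add_card_filter_not (s := (univ : Finset (Fin n)))
            (fun i => w i = false)
          simp only [card_univ, Fintype.card_fin, Bool.not_eq_false] at h
          exact h
        omega)
    refine ⟨y, ⟨e, he, fun i => ?_⟩, hCy⟩
    cases hw : w i with
    | false => exact h0 i (by simp [hw])
    | true => exact h1 i (by simp [hw]))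
  rw [eq_top_iff, ← h]
  refine iSup₂_le fun y hy => ?_
  obtain ⟨e, he, hm⟩ := hy
  exact le_VS (p := (y, e)) he hm

omit [FiniteDimensional F U] in
lemma base_case (φ : Λ → Submodule F U) {n δ : ℕ}
    (S : Set (Λ × (Fin n → Option Bool))) :
    ∃ (T : Finset (Λ × (Fin n → Option Bool))) (Z : (Fin n → Bool) → Submodule F U),
      (∀ p ∈ T, p ∈ S) ∧
      T.card + ∑ w, Module.finrank F (Z w) ≤
        Module.finrank F U * ∑ j ∈ Icc 0 (n + δ - 0), n.choose j ∧
      ∀ w, VS φ (T : Set (Λ × (Fin n → Option Bool))) w ⊔ Z w = ⊤ := by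
  refine ⟨∅, fun _ => ⊤, by simp, ?_, fun w => by simp⟩
  have h1 : ∑ _w : Fin n → Bool, Module.finrank F (⊤ : Submodule F U) =
      Module.finrank F U * 2 ^ n := by
    rw [finrank_top, sum_const, card_univ, smul_eq_mul, mul_comm]
    simp
  rw [card_empty, zero_add]
  refine h1.le.trans ?_
  exact card_words_le

/-- The covering lemma. -/
theorem cover_lemma {inc : Λ → L → Prop} {φ : Λ → Submodule F U} {g : ℕ}
    (hfull : ∀ Y : Set Λ, (∀ C : Finset L, C.card ≤ g → ∃ y ∈ Y, ∀ l ∈ C, ¬ inc y l) →
      (⨆ y ∈ Y, φ y) = ⊤) (n : ℕ) :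
    ∀ (lo δ : ℕ), δ ≤ 1 → 2 * lo ≤ n + δ →
    ∀ S : Set (Λ × (Fin n → Option Bool)), AvoidsAll' inc (g + (2 * lo + 1 - δ)) S →
    ∃ (T : Finset (Λ × (Fin n → Option Bool))) (Z : (Fin n → Bool) → Submodule F U),
      (∀ p ∈ T, p ∈ S) ∧
      T.card + ∑ w, Module.finrank F (Z w) ≤
        Module.finrank F U * ∑ j ∈ Icc lo (n + δ - lo), n.choose j ∧
      ∀ w, VS φ (T : Set (Λ × (Fin n → Option Bool))) w ⊔ Z w = ⊤ := by
  classical
  induction n with
  | zero =>
    intro lo δ hδ hlo S _
    have h0 : lo = 0 := by omega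
    subst h0
    exact base_case φ S
  | succ n ih =>
    intro lo δ hδ hlo S hS
    rcases Nat.eq_zero_or_pos lo with h0 | hpos
    · subst h0
      exact base_case φ S
    · have hb : g + (2 * lo + 1 - δ) = (g + (2 * (lo - 1) + 1 - δ)) + 2 := by omega
      rw [hb] at hS
      have hS1 := avoids_star' hS
      obtain ⟨T1, Z1, hT1, hc1, hw1⟩ := ih (lo - 1) δ hδ (by omega) _ hS1
      have hwin : n + δ - (lo - 1) = n + 1 + δ - lo := by omega
      rw [hwin] at hc1
      rw [sum_choose_split hpos (by omega), Nat.mul_add]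
      have hZ1 : ∀ w', Module.finrank F U ≤
          Module.finrank F (VS φ (T1 : Set (Λ × (Fin n → Option Bool))) w') +
            Module.finrank F (Z1 w') := by
        intro w'
        have h1 := Submodule.finrank_add_le_finrank_add_finrank
          (VS φ (T1 : Set (Λ × (Fin n → Option Bool))) w') (Z1 w')
        rw [hw1 w', finrank_top] at h1
        exact h1
      by_cases hcase : 2 * lo ≤ n + δ
      · have hS2 := avoids_any' (b := g + (2 * lo + 1 - δ)) (by rw [hb]; exact hS)
        obtain ⟨T2, Z2, hT2, hc2, hw2⟩ := ih lo δ hδ hcase _ hS2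
        have hwin2 : n + δ - lo = n + 1 + δ - lo - 1 := by omega
        rw [hwin2] at hc2
        have hZ2 : ∀ w', Module.finrank F U ≤
            Module.finrank F (VS φ (T2 : Set (Λ × (Fin n → Option Bool))) w') +
              Module.finrank F (Z2 w') := by
          intro w'
          have h1 := Submodule.finrank_add_le_finrank_add_finrank
            (VS φ (T2 : Set (Λ × (Fin n → Option Bool))) w') (Z2 w')
          rw [hw2 w', finrank_top] at h1
          exact h1
        choose! a ha using hT2
        -- lifts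
        let l1 : Λ × (Fin n → Option Bool) → Λ × (Fin (n + 1) → Option Bool) :=
          fun p => (p.1, (Fin.cons none p.2 : Fin (n + 1) → Option Bool))
        let l2 : Λ × (Fin n → Option Bool) → Λ × (Fin (n + 1) → Option Bool) :=
          fun p => (p.1, (Fin.cons (a p) p.2 : Fin (n + 1) → Option Bool))
        let V1 : (Fin n → Bool) → Submodule F U :=
          fun w' => VS φ (T1 : Set (Λ × (Fin n → Option Bool))) w'
        let V2 : Bool → (Fin n → Bool) → Submodule F U :=
          fun c w' => VS φ {p | p ∈ T2 ∧ a p ≠ some c} w'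
        have hcompl : ∀ w : Fin (n + 1) → Bool, ∃ Q : Submodule F U,
            IsCompl (V1 (fun i => w i.succ) ⊔ V2 (w 0) (fun i => w i.succ)) Q :=
          fun w => Submodule.exists_isCompl _
        choose Z hZ using hcompl
        refine ⟨T1.image l1 ∪ T2.image l2, Z, ?_, ?_, ?_⟩
        · intro e he
          rw [mem_union, mem_image, mem_image] at he
          rcases he with ⟨e', he', rfl⟩ | ⟨e', he', rfl⟩
          · exact hT1 e' he'
          · exact ha e' he'
        · have h1 := card_union_le (T1.image l1) (T2.image l2)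
          have h3 := card_image_le (s := T1) (f := l1)
          have h4 := card_image_le (s := T2) (f := l2)
          have hkey : ∑ w, Module.finrank F (Z w) ≤
              ∑ w', Module.finrank F (Z1 w') + ∑ w', Module.finrank F (Z2 w') := by
            rw [sum_cons, ← Finset.sum_add_distrib]
            refine Finset.sum_le_sum fun w' _ => ?_
            have hZc : ∀ c : Bool, Module.finrank F (V1 w' ⊔ V2 c w' : Submodule F U) +
                Module.finrank F (Z (Fin.cons c w' : Fin (n + 1) → Bool)) =
                Module.finrank F U := by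
              intro c
              exact Submodule.finrank_add_eq_of_isCompl (hZ (Fin.cons c w' : Fin (n + 1) → Bool))
            have hf := hZc false
            have ht := hZc true
            have hsum := Submodule.finrank_sup_add_finrank_inf_eq
              (V1 w' ⊔ V2 false w') (V1 w' ⊔ V2 true w')
            have hinf : Module.finrank F (V1 w') ≤ Module.finrank F
                ((V1 w' ⊔ V2 false w') ⊓ (V1 w' ⊔ V2 true w') : Submodule F U) :=
              Submodule.finrank_mono (le_inf le_sup_left le_sup_left)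
            have hsup : Module.finrank F
                (VS φ (T2 : Set (Λ × (Fin n → Option Bool))) w') ≤ Module.finrank F
                ((V1 w' ⊔ V2 false w') ⊔ (V1 w' ⊔ V2 true w') : Submodule F U) := by
              refine Submodule.finrank_mono (VS_le fun p hp hpm => ?_)
              by_cases hap : a p = some false
              · refine le_sup_of_le_right (le_sup_of_le_right ?_)
                exact le_VS (T := {p | p ∈ T2 ∧ a p ≠ some true}) ⟨hp, by rw [hap]; simp⟩ hpm
              · refine le_sup_of_le_left (le_sup_of_le_right ?_)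
                exact le_VS (T := {p | p ∈ T2 ∧ a p ≠ some false}) ⟨hp, hap⟩ hpm
            have e1 := hZ1 w'
            have e2 := hZ2 w'
            have e3 : Module.finrank F (V1 w') =
              Module.finrank F (VS φ (T1 : Set (Λ × (Fin n → Option Bool))) w') := rfl
            omega
          omega
        · intro w
          obtain ⟨c, w', rfl⟩ : ∃ (c : Bool) (w' : Fin n → Bool),
              w = (Fin.cons c w' : Fin (n + 1) → Bool) :=
            ⟨w 0, fun i => w i.succ, (Fin.cons_self_tail w).symm⟩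
          rw [eq_top_iff]
          have h5 := (hZ (Fin.cons c w' : Fin (n + 1) → Bool)).sup_eq_top
          rw [← h5]
          refine sup_le_sup_right ?_ _
          refine sup_le ?_ ?_
          · refine VS_le fun p hp hpm => ?_
            refine le_VS (p := l1 p) ?_ ?_
            · rw [coe_union]
              left
              exact mem_coe.2 (mem_image_of_mem l1 hp)
            · exact missW_cons (by simp) (by simpa using hpm)
          · refine VS_le fun p hp hpm => ?_
            refine le_VS (p := l2 p) ?_ ?_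
            · rw [coe_union]
              right
              exact mem_coe.2 (mem_image_of_mem l2 hp.1)
            · exact missW_cons (by simpa using hp.2) (by simpa using hpm)
      · -- the window is a single layer
        have hE : ∀ w' : Fin n → Bool, ∃ E : Finset (Λ × (Fin n → Option Bool)),
            (∀ p ∈ E, (p.1, (Fin.cons none p.2 : Fin (n + 1) → Option Bool)) ∈ S ∧
              MissW p.2 w') ∧
            VS φ (T1 : Set (Λ × (Fin n → Option Bool))) w' ⊔
              VS φ (E : Set (Λ × (Fin n → Option Bool))) w' = ⊤ ∧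
            E.card ≤ Module.finrank F (Z1 w') := by
          intro w'
          obtain ⟨E, hE1, hE2, hE3⟩ := exists_extend (F := F)
            (fun p : Λ × (Fin n → Option Bool) => φ p.1)
            {p | (p.1, (Fin.cons none p.2 : Fin (n + 1) → Option Bool)) ∈ S ∧ MissW p.2 w'}
            (VS φ (T1 : Set (Λ × (Fin n → Option Bool))) w')
          have hEeq : (⨆ p ∈ E, φ p.1) =
              VS φ (E : Set (Λ × (Fin n → Option Bool))) w' := by
            refine le_antisymm (iSup₂_le fun p hp => ?_) (VS_le fun p hp _ => ?_)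
            · exact le_VS (p := p) (mem_coe.2 hp) (hE1 p hp).2
            · exact le_iSup₂_of_le (f := fun (p : Λ × (Fin n → Option Bool)) (_ : p ∈ E) => φ p.1)
                p (mem_coe.1 hp) le_rfl
          rw [hEeq] at hE2 hE3
          have htop : VS φ (T1 : Set (Λ × (Fin n → Option Bool))) w' ⊔
              VS φ (E : Set (Λ × (Fin n → Option Bool))) w' = ⊤ := by
            rw [eq_top_iff, ← VS_full hfull (b := g + (2 * (lo - 1) + 1 - δ)) (by omega) hS1 w']
            exact VS_le fun p hp hpm => hE2 p ⟨hp, hpm⟩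
          refine ⟨E, hE1, htop, ?_⟩
          rw [htop, finrank_top] at hE3
          have := hZ1 w'
          omega
        choose E hE1 hE2 hE3 using hE
        let l1 : Λ × (Fin n → Option Bool) → Λ × (Fin (n + 1) → Option Bool) :=
          fun p => (p.1, (Fin.cons none p.2 : Fin (n + 1) → Option Bool))
        refine ⟨(T1 ∪ univ.biUnion E).image l1, fun _ => ⊥, ?_, ?_, ?_⟩
        · intro e he
          rw [mem_image] at he
          obtain ⟨e', he', rfl⟩ := he
          rw [mem_union, mem_biUnion] at he'
          rcases he' with h | ⟨w, -, h⟩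
          · exact hT1 e' h
          · exact (hE1 w e' h).1
        · have h1 := card_image_le (s := T1 ∪ univ.biUnion E) (f := l1)
          have h2 := card_union_le T1 (univ.biUnion E)
          have h3 : (univ.biUnion E).card ≤ ∑ w', Module.finrank F (Z1 w') :=
            card_biUnion_le.trans (Finset.sum_le_sum fun w' _ => hE3 w')
          have h4 : ∑ _w : Fin (n + 1) → Bool, Module.finrank F (⊥ : Submodule F U) = 0 := by
            simp
          rw [h4]
          omega
        · intro w
          obtain ⟨c, w', rfl⟩ : ∃ (c : Bool) (w' : Fin n → Bool),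
              w = (Fin.cons c w' : Fin (n + 1) → Bool) :=
            ⟨w 0, fun i => w i.succ, (Fin.cons_self_tail w).symm⟩
          rw [sup_bot_eq, eq_top_iff, ← hE2 w']
          refine sup_le ?_ ?_
          · refine VS_le fun p hp hpm => ?_
            refine le_VS (p := l1 p) ?_ (missW_cons (by simp) hpm)
            exact mem_coe.2 (mem_image_of_mem l1 (mem_union_left _ hp))
          · refine VS_le fun p hp hpm => ?_
            refine le_VS (p := l1 p) ?_ (missW_cons (by simp) hpm)
            exact mem_coe.2 (mem_image_of_mem l1 (mem_union_right _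
                (mem_biUnion.2 ⟨w', mem_univ _, hp⟩)))

/-- the first round -/
lemma first_round {m g D k : ℕ} (hg : g = m + D)
    {inc : Λ → L → Prop} {φ : Λ → Submodule F U}
    (hfull : ∀ Y : Set Λ, (∀ C : Finset L, C.card ≤ g → ∃ y ∈ Y, ∀ l ∈ C, ¬ inc y l) →
      (⨆ y ∈ Y, φ y) = ⊤)
    {S : Set (Λ × (Fin k → Option Bool))} (hS : AvoidsAll' inc (m + k) S) :
    ∃ (T : Finset (Λ × (Fin k → Option Bool))) (Z : (Fin k → Bool) → Submodule F U),
      (∀ p ∈ T, p ∈ S) ∧
      T.card + ∑ w, Module.finrank F (Z w) ≤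
        Module.finrank F U * ((D + 2) * k.choose (k / 2)) ∧
      ∀ w, VS φ (T : Set (Λ × (Fin k → Option Bool))) w ⊔ Z w = ⊤ := by
  classical
  by_cases hk : D ≤ k
  · obtain ⟨lo, δ, hδ, hlo⟩ : ∃ lo δ : ℕ, δ ≤ 1 ∧ 2 * lo + 1 = k - D + δ := by
      rcases Nat.even_or_odd' (k - D) with ⟨l, hl | hl⟩
      · exact ⟨l, 1, le_rfl, by omega⟩
      · exact ⟨l, 0, by omega, by omega⟩
    have hb : g + (2 * lo + 1 - δ) = m + k := by omega
    obtain ⟨T, Z, hT, hc, hw⟩ := cover_lemma hfull k lo δ hδ (by omega) S (by rw [hb]; exact hS)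
    refine ⟨T, Z, hT, hc.trans (Nat.mul_le_mul_left _ ?_), hw⟩
    calc ∑ j ∈ Icc lo (k + δ - lo), k.choose j
        ≤ ∑ _j ∈ Icc lo (k + δ - lo), k.choose (k / 2) :=
          Finset.sum_le_sum fun j _ => Nat.choose_le_middle j k
      _ = (k + δ - lo + 1 - lo) * k.choose (k / 2) := by
          rw [sum_const, Nat.card_Icc, smul_eq_mul]
      _ ≤ (D + 2) * k.choose (k / 2) := Nat.mul_le_mul_right _ (by omega)
  · refine ⟨∅, fun _ => ⊤, by simp, ?_, fun w => by simp⟩
    have h1 : ∑ _w : Fin k → Bool, Module.finrank F (⊤ : Submodule F U) =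
        Module.finrank F U * 2 ^ k := by
      rw [finrank_top, sum_const, card_univ, smul_eq_mul, mul_comm]
      simp
    have h2 : 2 ^ k ≤ (k + 1) * k.choose (k / 2) := by
      calc 2 ^ k = ∑ j ∈ range (k + 1), k.choose j := (Nat.sum_range_choose k).symm
        _ ≤ ∑ _j ∈ range (k + 1), k.choose (k / 2) :=
          Finset.sum_le_sum fun j _ => Nat.choose_le_middle j k
        _ = (k + 1) * k.choose (k / 2) := by rw [sum_const, card_range, smul_eq_mul]
    rw [card_empty, zero_add]
    refine h1.le.trans (Nat.mul_le_mul_left _ ?_)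
    exact h2.trans (Nat.mul_le_mul_right _ (by omega))

/-- Covering all pairs of a functional and a word: if each member of `S` killed by `ψ`... -/
theorem cover_words {m g D k : ℕ} (hg : g = m + D)
    {inc : Λ → L → Prop} {φ : Λ → Submodule F U}
    (hfull : ∀ Y : Set Λ, (∀ C : Finset L, C.card ≤ g → ∃ y ∈ Y, ∀ l ∈ C, ¬ inc y l) →
      (⨆ y ∈ Y, φ y) = ⊤)
    {S : Set (Λ × (Fin k → Option Bool))} (hS : AvoidsAll' inc (m + k) S) :
    ∃ T : Finset (Λ × (Fin k → Option Bool)), (∀ p ∈ T, p ∈ S) ∧
      T.card ≤ Module.finrank F U * ((D + 2) * k.choose (k / 2)) ∧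
      ∀ (Ψ : Submodule F U) (x : Fin k → Bool),
        (∃ p ∈ S, ¬ φ p.1 ≤ Ψ ∧ MissW p.2 x) → ∃ p ∈ T, ¬ φ p.1 ≤ Ψ ∧ MissW p.2 x := by
  classical
  obtain ⟨T0, Z, hT0, hc0, hw0⟩ := first_round (φ := φ) hg hfull hS
  have hE : ∀ x : Fin k → Bool, ∃ E : Finset (Λ × (Fin k → Option Bool)),
      (∀ p ∈ E, p ∈ S ∧ MissW p.2 x) ∧
      (∀ p ∈ S, MissW p.2 x → φ p.1 ≤
        VS φ (T0 : Set (Λ × (Fin k → Option Bool))) x ⊔
        VS φ (E : Set (Λ × (Fin k → Option Bool))) x) ∧
      E.card ≤ Module.finrank F (Z x) := by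
    intro x
    obtain ⟨E, hE1, hE2, hE3⟩ := exists_extend (F := F)
      (fun p : Λ × (Fin k → Option Bool) => φ p.1)
      {p | p ∈ S ∧ MissW p.2 x}
      (VS φ (T0 : Set (Λ × (Fin k → Option Bool))) x)
    have hEeq : (⨆ p ∈ E, φ p.1) =
        VS φ (E : Set (Λ × (Fin k → Option Bool))) x := by
      refine le_antisymm (iSup₂_le fun p hp => ?_) (VS_le fun p hp _ => ?_)
      · exact le_VS (p := p) (mem_coe.2 hp) (hE1 p hp).2
      · exact le_iSup₂_of_le (f := fun (p : Λ × (Fin k → Option Bool)) (_ : p ∈ E) => φ p.1)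
          p (mem_coe.1 hp) le_rfl
    rw [hEeq] at hE2 hE3
    refine ⟨E, hE1, fun p hp hm => hE2 p ⟨hp, hm⟩, ?_⟩
    have h1 := Submodule.finrank_add_le_finrank_add_finrank
      (VS φ (T0 : Set (Λ × (Fin k → Option Bool))) x) (Z x)
    rw [hw0 x, finrank_top] at h1
    have h2 := Submodule.finrank_le
      (VS φ (T0 : Set (Λ × (Fin k → Option Bool))) x ⊔
        VS φ (E : Set (Λ × (Fin k → Option Bool))) x)
    omega
  choose E hE1 hE2 hE3 using hE
  refine ⟨T0 ∪ univ.biUnion E, ?_, ?_, ?_⟩
  · intro p hp
    rw [mem_union, mem_biUnion] at hp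
    rcases hp with h | ⟨x, -, h⟩
    · exact hT0 p h
    · exact (hE1 x p h).1
  · have h2 := card_union_le T0 (univ.biUnion E)
    have h3 : (univ.biUnion E).card ≤ ∑ x, Module.finrank F (Z x) :=
      card_biUnion_le.trans (Finset.sum_le_sum fun x _ => hE3 x)
    omega
  · rintro Ψ x ⟨p, hpS, hpΨ, hpm⟩
    by_contra hno
    push Not at hno
    apply hpΨ
    refine (hE2 x p hpS hpm).trans (sup_le ?_ ?_)
    · refine VS_le fun q hq hqm => ?_
      by_contra hne
      exact hno q (mem_union_left _ hq) hne hqm
    · refine VS_le fun q hq hqm => ?_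
      by_contra hne
      exact hno q (mem_union_right _ (mem_biUnion.2 ⟨x, mem_univ _, hq⟩)) hne hqm

end cover

end Pool.Agent.helper82.KCE
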