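import Mathlib
import Pool.Agent.helper82.KCA.Fullness

/-!
Two lemmas on multi-affine forms.
-/

namespace Pool.Agent.helper82.KCE

open Finset Cardinal Pool.Agent.helper82.KCA

lemma exists_grid {β F : Type*} [Fintype β] [DecidableEq β] [Field F] (p q : β → F)
    (hpq : ∀ i, p i ≠ q i) (lam : (β → Bool) → F) (S0 : β → Bool) (hlam : lam S0 ≠ 0) :
    ∃ c : β → Bool, ∑ S : β → Bool,
      lam S * ∏ i, (if S i = true then 1 else (if c i = true then p i else q i)) ≠ 0 := by
  classical
  by_contra hno
  push Not at hno
  -- coefficients of the inverse matrices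
  let κ : β → Bool → Bool → F := fun i s c =>
    if s = true then (if c = true then - q i / (p i - q i) else p i / (p i - q i))
    else (if c = true then 1 / (p i - q i) else - 1 / (p i - q i))
  have hκ : ∀ i s t, ∑ c : Bool, κ i s c * (if t = true then 1 else (if c = true then p i else q i))
      = if t = s then 1 else 0 := by
    intro i s t
    have h1 : p i - q i ≠ 0 := sub_ne_zero.2 (hpq i)
    rw [Fintype.sum_bool]
    cases s <;> cases t <;> simp [κ] <;> field_simp <;> ring
  have h1 : ∀ S : β → Bool, ∑ c : β → Bool, (∏ i, κ i (S0 i) (c i)) *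
      ∏ i, (if S i = true then 1 else (if c i = true then p i else q i)) =
      if S = S0 then 1 else 0 := by
    intro S
    have h2 : ∀ c : β → Bool, (∏ i, κ i (S0 i) (c i)) *
        ∏ i, (if S i = true then 1 else (if c i = true then p i else q i)) =
        ∏ i, (κ i (S0 i) (c i) * (if S i = true then 1 else (if c i = true then p i else q i))) :=
      fun c => Finset.prod_mul_distrib.symm
    rw [Finset.sum_congr rfl (fun c _ => h2 c)]
    rw [← Fintype.prod_sum (fun i c => κ i (S0 i) c *
      (if S i = true then 1 else (if c = true then p i else q i)))]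
    rw [Finset.prod_congr rfl (fun i _ => hκ i (S0 i) (S i))]
    by_cases hS : S = S0
    · rw [if_pos hS, hS]
      simp
    · rw [if_neg hS]
      obtain ⟨i, hi⟩ := Function.ne_iff.1 hS
      exact Finset.prod_eq_zero (mem_univ i) (by rw [if_neg hi])
  apply hlam
  calc lam S0 = ∑ S : β → Bool, lam S * (if S = S0 then 1 else 0) := by simp
    _ = ∑ S : β → Bool, lam S * ∑ c : β → Bool, (∏ i, κ i (S0 i) (c i)) *
          ∏ i, (if S i = true then 1 else (if c i = true then p i else q i)) := by
        refine Finset.sum_congr rfl fun S _ => ?_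
        rw [h1 S]
    _ = ∑ c : β → Bool, (∏ i, κ i (S0 i) (c i)) * ∑ S : β → Bool,
          lam S * ∏ i, (if S i = true then 1 else (if c i = true then p i else q i)) := by
        simp_rw [Finset.mul_sum]
        rw [Finset.sum_comm]
        refine Finset.sum_congr rfl fun c _ => Finset.sum_congr rfl fun S _ => ?_
        ring
    _ = 0 := by
        refine Finset.sum_eq_zero fun c _ => ?_
        rw [hno c, mul_zero]

variable {α β : Type} [Fintype α] [DecidableEq α] [Fintype β] [DecidableEq β]

/-- The words on the first parts whose vectors are killed by a functional, one coefficient of which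
is `1`, are met by fewer than `2 ^ |α|` letters. -/
lemma exists_cover_inl (W : α ⊕ β → Type) [∀ i, Finite (W i)] (lam : (α → Bool) → GF W)
    (S0 : α → Bool) (h0 : lam S0 = 1) :
    ∃ C : Finset (Σ i, W i), C.card + 1 ≤ 2 ^ Fintype.card α ∧
      ∀ y : ∀ i : α, W (Sum.inl i),
        ∑ S, lam S * ∏ i, (if S i = true then 1 else gz W ⟨Sum.inl i, y i⟩) = 0 →
        ∃ i, (⟨Sum.inl i, y i⟩ : Σ i, W i) ∈ C := by
  classical
  let κ : Type := {S : α → Bool // S ≠ S0}
  let c : κ → GF W := fun S => lam S.1
  let ev : MvPolynomial κ ℚ →ₐ[ℚ] GF W := MvPolynomial.aeval c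
  let R : Subalgebra ℚ (GF W) := ev.range
  have hmem : ∀ S, lam S ∈ R := by
    intro S
    by_cases h : S = S0
    · rw [h, h0]; exact one_mem _
    · exact ⟨MvPolynomial.X ⟨S, h⟩, by simp [ev, c]⟩
  have hκ : Fintype.card κ + 1 = 2 ^ Fintype.card α := by
    have h1 : Fintype.card κ = Fintype.card (α → Bool) - 1 := by
      rw [Fintype.card_subtype_compl, Fintype.card_subtype_eq]
    have h2 : Fintype.card (α → Bool) = 2 ^ Fintype.card α := by simp
    have h3 : 0 < 2 ^ Fintype.card α := by positivity
    omega
  have htr : Algebra.trdeg ℚ R ≤ #κ := by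
    have h1 := trdeg_le_of_surjective (R := ℚ) ev.rangeRestrict
      ev.rangeRestrict_surjective
    rw [MvPolynomial.trdeg_of_isDomain] at h1
    simpa using h1
  have halg : Algebra.IsAlgebraic (Algebra.adjoin R (Set.range (gz W))) (GF W) := by
    constructor
    have hin : ∀ a : MvPolynomial (Σ i, W i) ℚ,
        algebraMap (MvPolynomial (Σ i, W i) ℚ) (GF W) a ∈
          Algebra.adjoin R (Set.range (gz W)) := by
      intro a
      induction a using MvPolynomial.induction_on with
      | C q =>
        have : algebraMap (MvPolynomial (Σ i, W i) ℚ) (GF W) (MvPolynomial.C q) =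
            algebraMap R (GF W) (algebraMap ℚ R q) := by
          rw [← IsScalarTower.algebraMap_apply ℚ R (GF W)]
          rw [← MvPolynomial.algebraMap_eq, ← IsScalarTower.algebraMap_apply]
        rw [this]
        exact Subalgebra.algebraMap_mem _ _
      | add p q hp hq => rw [map_add]; exact add_mem hp hq
      | mul_X p l hp =>
        rw [map_mul]
        exact mul_mem hp (Algebra.subset_adjoin ⟨l, rfl⟩)
    intro x
    obtain ⟨a, b, hb, rfl⟩ := IsFractionRing.div_surjective (A := MvPolynomial (Σ i, W i) ℚ) x
    have ha := isAlgebraic_algebraMap (A := GF W)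
      (⟨_, hin a⟩ : Algebra.adjoin R (Set.range (gz W)))
    have hb' := isAlgebraic_algebraMap (A := GF W)
      (⟨_, hin b⟩ : Algebra.adjoin R (Set.range (gz W)))
    rw [div_eq_mul_inv]
    exact ha.mul hb'.inv
  obtain ⟨t, hts, ht⟩ := exists_isTranscendenceBasis_subset (R := R) (Set.range (gz W))
  have hadd := trdeg_add_eq ℚ R (A := GF W)
  have hL := (gz_indep W).cardinalMk_le_trdeg
  rw [← hadd, ← ht.cardinalMk_eq_trdeg] at hL
  have hfinL : Finite (Σ i, W i) := inferInstance
  let _ : Fintype (Σ i, W i) := Fintype.ofFinite _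
  -- letters in the basis
  let P : Finset (Σ i, W i) := univ.filter fun l => gz W l ∈ t
  have htP : #t ≤ (P.card : Cardinal) := by
    have h1 : ∀ a : t, ∃ l ∈ P, gz W l = a.1 := by
      intro a
      obtain ⟨l, hl⟩ := hts a.2
      exact ⟨l, by simp [P, hl, a.2], hl⟩
    choose f hf1 hf2 using h1
    have h2 : Cardinal.mk t ≤ Cardinal.mk P := by
      refine Cardinal.mk_le_of_injective (f := fun a : t => (⟨f a, hf1 a⟩ : P)) ?_
      intro a b hab
      have h3 : f a = f b := congrArg Subtype.val hab
      exact Subtype.ext (by rw [← hf2 a, ← hf2 b, h3])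
    simpa using h2
  have hnat : Fintype.card (Σ i, W i) ≤ Fintype.card κ + P.card := by
    have h1 : (#(Σ i, W i) : Cardinal) ≤ #κ + (P.card : Cardinal) :=
      hL.trans (add_le_add htr htP)
    rw [Cardinal.mk_fintype, Cardinal.mk_fintype] at h1
    exact_mod_cast h1
  refine ⟨Pᶜ, ?_, ?_⟩
  · rw [card_compl]
    omega
  · intro y hy
    by_contra hno
    push Not at hno
    have hin : ∀ i, gz W ⟨Sum.inl i, y i⟩ ∈ t := by
      intro i
      by_contra h
      refine hno i ?_
      simp [P, h]
    have hind : AlgebraicIndependent R (fun i : α => gz W ⟨Sum.inl i, y i⟩) := by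
      have h' := AlgebraicIndependent.comp ht.1
        (fun i : α => (⟨gz W ⟨Sum.inl i, y i⟩, hin i⟩ : t)) (by
        intro i j hij
        have h1 : gz W ⟨Sum.inl i, y i⟩ = gz W ⟨Sum.inl j, y j⟩ := congrArg Subtype.val hij
        have h2 := gz_injective W h1
        exact Sum.inl_injective (congrArg Sigma.fst h2))
      exact h'
    let p : MvPolynomial α R :=
      ∑ S : α → Bool, MvPolynomial.monomial (expo S) (⟨lam S, hmem S⟩ : R)
    have hp : MvPolynomial.aeval (fun i : α => gz W ⟨Sum.inl i, y i⟩) p = 0 := by
      rw [← hy]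
      simp only [p, map_sum]
      refine Finset.sum_congr rfl fun S _ => ?_
      rw [MvPolynomial.aeval_monomial]
      congr 1
      rw [Finsupp.prod_fintype _ _ (by simp)]
      refine Finset.prod_congr rfl fun i _ => ?_
      simp only [expo, Finsupp.equivFunOnFinite_symm_apply_apply]
      split_ifs <;> simp
    have hp0 : p = 0 := hind.eq_zero_of_aeval_eq_zero p hp
    have hc : MvPolynomial.coeff (expo S0) p = (⟨lam S0, hmem S0⟩ : R) := by
      simp only [p, MvPolynomial.coeff_sum, MvPolynomial.coeff_monomial]
      rw [Finset.sum_eq_single S0]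
      · simp
      · intro S' _ hne
        rw [if_neg]
        exact fun h => hne (expo_injective h)
      · intro h
        exact absurd (mem_univ S0) h
    rw [hp0] at hc
    have h1 : (0 : GF W) = lam S0 := by
      have := congrArg Subtype.val hc
      simpa using this
    rw [h0] at h1
    exact zero_ne_one h1

end Pool.Agent.helper82.KCE
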