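import Mathlib
import Pool.Agent.helper82.KCA.Fullness
import Pool.Agent.helper82.KCE.Cover
import Pool.Agent.helper82.KCE.StarFull

/-!
Subspaces attached to words with private letters.
-/

namespace Pool.Agent.helper82.KCE

open Finset Pool.Agent.helper82.KCA

section star

variable {α β : Type} [Fintype α] [DecidableEq α] [Fintype β] [DecidableEq β]
  (V : α ⊕ β → Type)

/-- the letters, with an additional letter in each part -/
abbrev WO {α β : Type} (V : α ⊕ β → Type) : α ⊕ β → Type := fun i => Option (V i)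

/-- the words obtained from `y` by changing its letters outside `B` in the second parts -/
def fillings {α β : Type} {V : α ⊕ β → Type} (B : ∀ i : β, Finset (V (Sum.inr i)))
    (y : ∀ i, V i) : Set (∀ i, WO V i) :=
  {z | (∀ i : α, z (Sum.inl i) = some (y (Sum.inl i))) ∧
    ∀ i : β, y (Sum.inr i) ∈ B i → z (Sum.inr i) = some (y (Sum.inr i))}

/-- the subspace of a word -/
noncomputable def PhiS {V : α ⊕ β → Type} (B : ∀ i : β, Finset (V (Sum.inr i)))
    (y : ∀ i, V i) : Submodule (GF (WO V)) ((α ⊕ β → Bool) → GF (WO V)) :=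
  Submodule.span (GF (WO V)) (gphi (WO V) '' fillings B y)

variable {V}

/-- a family of words avoiding all small sets of letters -/
theorem star_full [∀ i, Finite (V i)] (B : ∀ i : β, Finset (V (Sum.inr i)))
    (Y : Set (∀ i, V i))
    (hY : ∀ C : Finset (Σ i, V i), C.card ≤ 2 ^ Fintype.card α - 1 + ∑ i, (B i).card →
      ∃ y ∈ Y, ∀ l ∈ C, y l.1 ≠ l.2) :
    (⨆ y ∈ Y, PhiS B y) = ⊤ := by
  classical
  by_contra htop
  obtain ⟨f, hf0, hf⟩ := Submodule.exists_le_ker_of_lt_top _ (lt_top_iff_ne_top.2 htop)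
  have hfv : ∀ v, f v = ∑ S, f (Pi.single S 1) * v S := by
    intro v
    have h1 : v = ∑ S, v S • (Pi.single S (1 : GF (WO V)) : (α ⊕ β → Bool) → GF (WO V)) := by
      funext S
      simp [Finset.sum_apply, Pi.single_apply]
    conv_lhs => rw [h1]
    rw [map_sum]
    refine Finset.sum_congr rfl fun S _ => ?_
    rw [map_smul, smul_eq_mul, mul_comm]
  obtain ⟨S0, hS0⟩ : ∃ S0, f (Pi.single S0 1) ≠ 0 := by
    by_contra hno
    push Not at hno
    apply hf0
    refine LinearMap.ext fun v => ?_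
    rw [hfv]
    simp [hno]
  -- the functional on a word
  have hval : ∀ z : ∀ i, WO V i, f (gphi (WO V) z) =
      ∑ S1 : α → Bool, (∑ S2 : β → Bool, f (Pi.single (Sum.elim S1 S2) 1) *
        ∏ i, (if S2 i = true then 1 else gz (WO V) ⟨Sum.inr i, z (Sum.inr i)⟩)) *
        ∏ i, (if S1 i = true then 1 else gz (WO V) ⟨Sum.inl i, z (Sum.inl i)⟩) := by
    intro z
    rw [hfv]
    rw [← (Equiv.sumArrowEquivProdArrow α β Bool).symm.sum_comp, Fintype.sum_prod_type]
    refine Finset.sum_congr rfl fun S1 _ => ?_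
    rw [Finset.sum_mul]
    refine Finset.sum_congr rfl fun S2 _ => ?_
    have h1 : (Equiv.sumArrowEquivProdArrow α β Bool).symm (S1, S2) = Sum.elim S1 S2 := rfl
    rw [h1]
    unfold gphi
    rw [Fintype.prod_sum_type]
    simp only [Sum.elim_inl, Sum.elim_inr]
    ring_nf
  -- a member of the family
  obtain ⟨y0, -, -⟩ := hY ∅ (by simp)
  -- letters of the second parts for which the functional survives
  obtain ⟨c, hc⟩ := exists_grid (β := β) (F := GF (WO V))
    (fun i => gz (WO V) ⟨Sum.inr i, some (y0 (Sum.inr i))⟩)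
    (fun i => gz (WO V) ⟨Sum.inr i, none⟩) (by
      intro i h
      have h1 := gz_injective (WO V) h
      simp only [Sigma.mk.injEq, heq_eq_eq, true_and] at h1
      cases h1)
    (fun S2 => f (Pi.single (Sum.elim (fun i => S0 (Sum.inl i)) S2) 1))
    (fun i => S0 (Sum.inr i)) (by
      have : Sum.elim (fun i => S0 (Sum.inl i)) (fun i => S0 (Sum.inr i)) = S0 := by
        funext i
        rcases i with i | i <;> rfl
      rw [this]
      exact hS0)
  let w : ∀ i : β, WO V (Sum.inr i) :=
    fun i => if c i = true then some (y0 (Sum.inr i)) else none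
  have hw : ∀ i : β, gz (WO V) ⟨Sum.inr i, w i⟩ = if c i = true then
      gz (WO V) ⟨Sum.inr i, some (y0 (Sum.inr i))⟩ else gz (WO V) ⟨Sum.inr i, none⟩ := by
    intro i
    simp only [w]
    split_ifs <;> rfl
  let lam1 : (α → Bool) → GF (WO V) := fun S1 =>
    ∑ S2 : β → Bool, f (Pi.single (Sum.elim S1 S2) 1) *
        ∏ i, (if S2 i = true then 1 else gz (WO V) ⟨Sum.inr i, w i⟩)
  have hlam1 : lam1 (fun i => S0 (Sum.inl i)) ≠ 0 := by
    intro h
    apply hc
    rw [← h]
    simp only [lam1]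
    refine Finset.sum_congr rfl fun S2 _ => ?_
    congr 1
    refine Finset.prod_congr rfl fun i _ => ?_
    rw [hw i]
  obtain ⟨C1, hC1, hCy⟩ := exists_cover_inl (WO V)
    (fun S => lam1 S / lam1 (fun i => S0 (Sum.inl i))) (fun i => S0 (Sum.inl i)) (div_self hlam1)
  -- the blocked letters
  let g : (Σ i, WO V i) → Σ i, V i := fun l => ⟨l.1, l.2.getD (y0 l.1)⟩
  let C2 : Finset (Σ i, V i) := univ.biUnion fun i : β => (B i).image fun x => ⟨Sum.inr i, x⟩
  have hC2 : C2.card ≤ ∑ i, (B i).card :=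
    card_biUnion_le.trans (Finset.sum_le_sum fun i _ => card_image_le)
  obtain ⟨y, hyY, hav⟩ := hY (C1.image g ∪ C2) (by
    have h1 := card_union_le (C1.image g) C2
    have h2 := card_image_le (s := C1) (f := g)
    omega)
  have hyB : ∀ i : β, y (Sum.inr i) ∉ B i := by
    intro i h
    refine hav ⟨Sum.inr i, y (Sum.inr i)⟩ (mem_union_right _ ?_) rfl
    exact mem_biUnion.2 ⟨i, mem_univ _, mem_image.2 ⟨_, h, rfl⟩⟩
  let z : ∀ i, WO V i := fun i => match i with
    | Sum.inl i => some (y (Sum.inl i))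
    | Sum.inr i => w i
  have hz : z ∈ fillings B y := ⟨fun i => rfl, fun i h => absurd h (hyB i)⟩
  have hfz : f (gphi (WO V) z) = 0 := by
    refine hf ?_
    exact (le_iSup₂_of_le (f := fun (y : ∀ i, V i) (_ : y ∈ Y) => PhiS B y) y hyY le_rfl)
      (Submodule.subset_span ⟨z, hz, rfl⟩)
  rw [hval z] at hfz
  obtain ⟨i, hi⟩ := hCy (fun i => some (y (Sum.inl i))) (by
    have h1 : ∑ S, lam1 S / lam1 (fun i => S0 (Sum.inl i)) *
        ∏ i, (if S i = true then 1 else
          gz (WO V) ⟨Sum.inl i, some (y (Sum.inl i))⟩) =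
        (∑ S, lam1 S * ∏ i, (if S i = true then 1 else
          gz (WO V) ⟨Sum.inl i, some (y (Sum.inl i))⟩)) / lam1 (fun i => S0 (Sum.inl i)) := by
      rw [Finset.sum_div]
      refine Finset.sum_congr rfl fun S _ => ?_
      ring
    rw [h1]
    have h2 : ∑ S, lam1 S * ∏ i, (if S i = true then 1 else
          gz (WO V) ⟨Sum.inl i, some (y (Sum.inl i))⟩) = 0 := hfz
    rw [h2, zero_div])
  exact hav ⟨Sum.inl i, y (Sum.inl i)⟩ (mem_union_left _ (mem_image.2 ⟨_, hi, rfl⟩)) rfl

/-- which functionals kill the subspace of a word -/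
theorem not_PhiS_le_iff (B : ∀ i : β, Finset (V (Sum.inr i))) (a y : ∀ i, V i) :
    ¬ PhiS B y ≤ LinearMap.ker (gpsi (WO V) (fun i => some (a i))) ↔
      (∀ i : α, a (Sum.inl i) ≠ y (Sum.inl i)) ∧
        ∀ i : β, y (Sum.inr i) ∈ B i → a (Sum.inr i) ≠ y (Sum.inr i) := by
  classical
  constructor
  · intro h
    by_contra hno
    apply h
    refine Submodule.span_le.2 ?_
    rintro _ ⟨z, hz, rfl⟩
    by_contra hne
    have h1 := (gpsi_ne_zero_iff (WO V) (fun i => some (a i)) z).1 hne
    apply hno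
    refine ⟨fun i hi => h1 (Sum.inl i) ?_, fun i hB hi => h1 (Sum.inr i) ?_⟩
    · rw [hz.1 i, hi]
    · rw [hz.2 i hB, hi]
  · rintro ⟨h1, h2⟩ hle
    let z : ∀ i, WO V i := fun i => match i with
      | Sum.inl i => some (y (Sum.inl i))
      | Sum.inr i => if y (Sum.inr i) ∈ B i then some (y (Sum.inr i)) else none
    have hz : z ∈ fillings B y := by
      refine ⟨fun i => rfl, fun i hB => ?_⟩
      simp only [z]
      rw [if_pos hB]
    have h3 : gpsi (WO V) (fun i => some (a i)) (gphi (WO V) z) = 0 :=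
      hle (Submodule.subset_span ⟨z, hz, rfl⟩)
    refine (gpsi_ne_zero_iff (WO V) (fun i => some (a i)) z).2 ?_ h3
    intro i
    rcases i with i | i
    · intro h
      exact h1 i (Option.some_injective _ h)
    · simp only [z]
      split_ifs with hB
      · intro h
        exact h2 i hB (Option.some_injective _ h)
      · intro h
        cases h

end star

end Pool.Agent.helper82.KCE
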